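import Pool.Agent.Lib.MP_211c6f_gt.Weird

set_option autoImplicit false
open Filter Topology Set

namespace Pool.Agent.Results.MP_211c6f_gt.TwoQuotients

section Defs
variable {X : Type} [TopologicalSpace X]

/-- `A` is an arc with the two endpoints `x` and `y`: the image of an injective path. -/
def IsArc (A : Set X) (x y : X) : Prop :=
  ∃ γ : unitInterval → X, Continuous γ ∧ Function.Injective γ ∧ γ 0 = x ∧ γ 1 = y ∧ range γ = A

/-- `A` is `[x,y]`: the point `x` if `x = y`, or an arc from `x` to `y`. -/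
def IsSeg (A : Set X) (x y : X) : Prop := (y = x ∧ A = {x}) ∨ IsArc A x y

/-- ramification point: common endpoint of three arcs that are otherwise pairwise disjoint. -/
def IsRam (w : X) : Prop :=
  ∃ (A : Fin 3 → Set X) (e : Fin 3 → X), (∀ i, IsArc (A i) w (e i)) ∧
    ∀ i j, i ≠ j → A i ∩ A j = {w}

/-- `e` is an endpoint of every arc that contains it. -/
def IsEnd (e : X) : Prop := ∀ (A : Set X) (x y : X), IsArc A x y → e ∈ A → e = x ∨ e = y

end Defs

/-- `X` is a smooth fan with top `v` whose set of endpoints is dense. -/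
structure IsLelekFan (X : Type) [MetricSpace X] (v : X) : Prop where
  compact : CompactSpace X
  connected : ConnectedSpace X
  unicoherent : ∀ K M : Set X, IsClosed K → IsConnected K → IsClosed M → IsConnected M →
    IsPreconnected (K ∩ M)
  arcs : ∀ x y : X, x ≠ y → ∃ A : Set X, IsArc A x y
  top : ∀ w : X, IsRam w ↔ w = v
  smooth : ∀ (x : ℕ → X) (y : X) (S : ℕ → Set X) (T : Set X), Tendsto x atTop (𝓝 y) →
    (∀ n, IsSeg (S n) v (x n)) → IsSeg T v y →
    Tendsto (fun n => Metric.hausdorffEDist (S n) T) atTop (𝓝 0)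
  dense_ends : Dense {e : X | IsEnd e}

/-- Two injective sequences of endpoints with disjoint dense ranges. -/
structure Pairing (X : Type) [TopologicalSpace X] : Type where
  a : ℕ → X
  b : ℕ → X
  a_end : ∀ i, IsEnd (a i)
  b_end : ∀ i, IsEnd (b i)
  a_inj : Function.Injective a
  b_inj : Function.Injective b
  disj : ∀ i j, a i ≠ b j
  a_dense : Dense (range a)
  b_dense : Dense (range b)

namespace Pairing
variable {X : Type} [TopologicalSpace X] (P : Pairing X)

/-- The decomposition: the sets `{a i, b i}` and the singletons of all other points. -/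
def parts : Set (Set X) :=
  {D | (∃ i, D = {P.a i, P.b i}) ∨ ∃ x, (∀ i, x ≠ P.a i ∧ x ≠ P.b i) ∧ D = {x}}

theorem partition (x : X) : ∃! D, D ∈ P.parts ∧ x ∈ D := by
  by_cases h : ∃ i, x = P.a i ∨ x = P.b i
  · obtain ⟨i, hi⟩ := h
    refine ⟨{P.a i, P.b i}, ⟨Or.inl ⟨i, rfl⟩, by simpa using hi⟩, ?_⟩
    rintro D ⟨⟨j, rfl⟩ | ⟨y, hy, rfl⟩, hx⟩
    · have hij : i = j := by
        rcases hi with rfl | rfl <;> rcases hx with hx | hx
        · exact P.a_inj hx
        · exact absurd hx (P.disj _ _)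
        · exact absurd hx.symm (P.disj _ _)
        · exact P.b_inj hx
      rw [hij]
    · rw [mem_singleton_iff] at hx
      subst hx
      rcases hi with hi | hi
      · exact absurd hi (hy i).1
      · exact absurd hi (hy i).2
  · push Not at h
    refine ⟨{x}, ⟨Or.inr ⟨x, h, rfl⟩, rfl⟩, ?_⟩
    rintro D ⟨⟨j, rfl⟩ | ⟨y, hy, rfl⟩, hx⟩
    · rcases hx with hx | hx
      · exact absurd hx (h j).1
      · exact absurd hx (h j).2
    · rw [mem_singleton_iff] at hx
      rw [hx]

/-- The quotient space of `X` by the decomposition. -/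
abbrev Quot : Type := Quotient (Setoid.mkClasses P.parts P.partition)

/-- Upper semicontinuity of the decomposition. -/
def USC : Prop := ∀ D ∈ P.parts, ∀ U : Set X, IsOpen U → D ⊆ U →
  ∃ V : Set X, IsOpen V ∧ D ⊆ V ∧ ∀ D' ∈ P.parts, (D' ∩ V).Nonempty → D' ⊆ U

end Pairing

theorem isRam_iff {X : Type} [TopologicalSpace X] (w : X) : IsRam w ↔ Lelek.Ram w := by
  constructor
  · rintro ⟨A, e, h1, h2⟩
    choose γ hc hi h0 _ hr using h1
    refine ⟨γ, fun i => ⟨hc i, hi i, h0 i⟩, fun i j hij => ?_⟩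
    rw [hr, hr]; exact h2 i j hij
  · rintro ⟨γ, h1, h2⟩
    exact ⟨fun i => range (γ i), fun i => γ i 1,
      fun i => ⟨γ i, (h1 i).1, (h1 i).2.1, (h1 i).2.2, rfl, rfl⟩, h2⟩

theorem IsRam.map {Y Z : Type} [TopologicalSpace Y] [TopologicalSpace Z] (f : Y ≃ₜ Z) {w : Y}
    (h : IsRam w) : IsRam (f w) :=
  (isRam_iff _).mpr (((isRam_iff _).mp h).map f)

theorem IsArc.symm {X : Type} [TopologicalSpace X] {A : Set X} {x y : X} (h : IsArc A x y) :
    IsArc A y x := by
  obtain ⟨γ, hc, hi, h0, h1, hr⟩ := h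
  refine ⟨γ ∘ unitInterval.symm, hc.comp unitInterval.continuous_symm,
    hi.comp unitInterval.symm_bijective.injective, by simp [h1], by simp [h0], ?_⟩
  rw [unitInterval.symm_bijective.surjective.range_comp, hr]

theorem sc_inj {p : Lelek.L} (hp : 0 < Lelek.hgt p) {r s : unitInterval}
    (h : Lelek.sc r p = Lelek.sc s p) : r = s := by
  have h1 := congrArg Lelek.hgt h
  rw [Lelek.hgt_sc, Lelek.hgt_sc] at h1
  exact Subtype.ext (mul_right_cancel₀ hp.ne' h1)

theorem arc_v {y : Lelek.L} (hy : y ≠ Lelek.v) : ∃ A, IsArc A Lelek.v y :=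
  ⟨_, fun r => Lelek.sc r y, Lelek.sc_cont y,
    fun _ _ h => sc_inj (Lelek.hgt_pos_iff.mpr hy) h, Lelek.sc_zero y, Lelek.sc_one y, rfl⟩

theorem arc_same {x y : Lelek.L} (hx : x ≠ Lelek.v) (hd : Lelek.dir x = Lelek.dir y)
    (hlt : Lelek.hgt x < Lelek.hgt y) : ∃ A, IsArc A x y := by
  have hx0 := Lelek.hgt_pos_iff.mpr hx
  have hy0 := hx0.trans hlt
  have hk1 : Lelek.hgt x / Lelek.hgt y < 1 := (div_lt_one hy0).mpr hlt
  have hk0 : 0 < Lelek.hgt x / Lelek.hgt y := div_pos hx0 hy0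
  set k := Lelek.hgt x / Lelek.hgt y with hk
  set s : unitInterval → unitInterval := fun r => ⟨(1 - r) * k + r, by
    have h1 := r.2.1
    have h2 := r.2.2
    constructor <;> nlinarith⟩ with hs
  have hsc : Continuous s := by
    refine Continuous.subtype_mk ?_ _
    exact ((continuous_const.sub continuous_subtype_val).mul continuous_const).add
      continuous_subtype_val
  refine ⟨_, fun r => Lelek.sc (s r) y, ?_, ?_, ?_, ?_, rfl⟩
  · exact (Lelek.sc_cont y).comp hsc
  · intro r t h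
    have h1 : s r = s t := sc_inj hy0 h
    have h2 : (1 - (r : ℝ)) * k + r = (1 - (t : ℝ)) * k + t := congrArg Subtype.val h1
    have h3 : ((r : ℝ) - t) * (1 - k) = 0 := by linarith
    rcases mul_eq_zero.mp h3 with h4 | h4
    · exact Subtype.ext (by linarith)
    · exact absurd h4 (by linarith)
  · have h1 : ((s 0 : unitInterval) : ℝ) = k := by simp [hs]
    have h2 : 0 < ((s 0 : unitInterval) : ℝ) * Lelek.hgt y := by rw [h1]; positivity
    refine Lelek.ext' ?_ ?_
    · rw [Lelek.hgt_sc, h1, hk, div_mul_cancel₀ _ hy0.ne']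
    · show Lelek.dir (Lelek.sc (s 0) y) = _
      rw [Lelek.dir_sc h2, hd]
  · have h1 : s 1 = 1 := Subtype.ext (by simp [hs])
    show Lelek.sc (s 1) y = y
    rw [h1, Lelek.sc_one]

theorem arc_diff {x y : Lelek.L} (hx : x ≠ Lelek.v) (hy : y ≠ Lelek.v)
    (hd : Lelek.dir x ≠ Lelek.dir y) : ∃ A, IsArc A x y := by
  have hx0 := Lelek.hgt_pos_iff.mpr hx
  have hy0 := Lelek.hgt_pos_iff.mpr hy
  set f : unitInterval → unitInterval := fun r => projIcc 0 1 zero_le_one (1 - 2 * (r : ℝ)) with hf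
  set g : unitInterval → unitInterval := fun r => projIcc 0 1 zero_le_one (2 * (r : ℝ) - 1) with hg
  have hfc : Continuous f := continuous_projIcc.comp
    (continuous_const.sub (continuous_const.mul continuous_subtype_val))
  have hgc : Continuous g := continuous_projIcc.comp
    ((continuous_const.mul continuous_subtype_val).sub continuous_const)
  have hfv : ∀ r : unitInterval, (r : ℝ) ≤ 1 / 2 → ((f r : unitInterval) : ℝ) = 1 - 2 * r := by
    intro r hr
    have : (1 - 2 * (r : ℝ)) ∈ Icc (0 : ℝ) 1 := ⟨by linarith, by linarith [r.2.1]⟩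
    rw [hf]; simp only; rw [projIcc_of_mem _ this]
  have hgv : ∀ r : unitInterval, 1 / 2 ≤ (r : ℝ) → ((g r : unitInterval) : ℝ) = 2 * r - 1 := by
    intro r hr
    have : (2 * (r : ℝ) - 1) ∈ Icc (0 : ℝ) 1 := ⟨by linarith, by linarith [r.2.2]⟩
    rw [hg]; simp only; rw [projIcc_of_mem _ this]
  set γ : unitInterval → Lelek.L :=
    fun r => if (r : ℝ) ≤ 1 / 2 then Lelek.sc (f r) x else Lelek.sc (g r) y with hγ
  have key : ∀ r s : unitInterval, (r : ℝ) ≤ 1 / 2 → ¬ ((s : ℝ) ≤ 1 / 2) →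
      Lelek.sc (f r) x ≠ Lelek.sc (g s) y := by
    intro r s hr hs h
    push Not at hs
    have h1 : 0 < ((g s : unitInterval) : ℝ) * Lelek.hgt y := by
      rw [hgv s hs.le]
      exact mul_pos (by linarith) hy0
    have h2 : 0 < ((f r : unitInterval) : ℝ) * Lelek.hgt x := by
      have := congrArg Lelek.hgt h
      rw [Lelek.hgt_sc, Lelek.hgt_sc] at this
      rw [this]; exact h1
    have h3 := congrArg Lelek.dir h
    rw [Lelek.dir_sc h1, Lelek.dir_sc h2] at h3
    exact hd h3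
  refine ⟨_, γ, ?_, ?_, ?_, ?_, rfl⟩
  · refine Continuous.if_le ((Lelek.sc_cont x).comp hfc) ((Lelek.sc_cont y).comp hgc)
      continuous_subtype_val continuous_const ?_
    intro r hr
    have h1 : f r = 0 := Subtype.ext (by rw [hfv r hr.le, hr]; simp)
    have h2 : g r = 0 := Subtype.ext (by rw [hgv r hr.ge, hr]; simp)
    show Lelek.sc (f r) x = Lelek.sc (g r) y
    rw [h1, h2, Lelek.sc_zero, Lelek.sc_zero]
  · intro r s h
    by_cases hr : (r : ℝ) ≤ 1 / 2 <;> by_cases hs : (s : ℝ) ≤ 1 / 2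
    · simp only [hγ, if_pos hr, if_pos hs] at h
      have h1 := congrArg Subtype.val (sc_inj hx0 h)
      rw [hfv r hr, hfv s hs] at h1
      exact Subtype.ext (by linarith)
    · simp only [hγ, if_pos hr, if_neg hs] at h
      exact absurd h (key r s hr hs)
    · simp only [hγ, if_neg hr, if_pos hs] at h
      exact absurd h.symm (key s r hs hr)
    · simp only [hγ, if_neg hr, if_neg hs] at h
      have h1 := congrArg Subtype.val (sc_inj hy0 h)
      rw [hgv r (not_le.mp hr).le, hgv s (not_le.mp hs).le] at h1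
      exact Subtype.ext (by linarith)
  · have h0 : ((0 : unitInterval) : ℝ) ≤ 1 / 2 := by simp
    have h1 : f 0 = 1 := Subtype.ext (by rw [hfv 0 h0]; simp)
    simp only [hγ, if_pos h0, h1, Lelek.sc_one]
  · have h0 : ¬ (((1 : unitInterval) : ℝ) ≤ 1 / 2) := by norm_num
    have h1 : g 1 = 1 := Subtype.ext (by rw [hgv 1 (by norm_num)]; norm_num)
    simp only [hγ, if_neg h0, h1, Lelek.sc_one]

theorem arc_all {x y : Lelek.L} (h : x ≠ y) : ∃ A, IsArc A x y := by
  by_cases hx : x = Lelek.v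
  · subst hx; exact arc_v h.symm
  by_cases hy : y = Lelek.v
  · subst hy
    obtain ⟨A, hA⟩ := arc_v hx
    exact ⟨A, hA.symm⟩
  by_cases hd : Lelek.dir x = Lelek.dir y
  · rcases lt_trichotomy (Lelek.hgt x) (Lelek.hgt y) with h1 | h1 | h1
    · exact arc_same hx hd h1
    · exact absurd (Lelek.ext' h1 hd) h
    · obtain ⟨A, hA⟩ := arc_same hy hd.symm h1
      exact ⟨A, hA.symm⟩
  · exact arc_diff hx hy hd

theorem top_isEnd {p : Lelek.L} (hp : Lelek.IsTop p) : IsEnd p := by
  rintro A x y ⟨γ, hc, hi, rfl, rfl, rfl⟩ h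
  exact hp.endpoint hc hi h

theorem isLelekFan_L : IsLelekFan Lelek.L Lelek.v where
  compact := inferInstance
  connected := inferInstance
  unicoherent := Lelek.unicoherent
  arcs := fun _ _ h => arc_all h
  top := by
    intro w
    rw [isRam_iff]
    constructor
    · intro h
      by_contra hw
      exact Lelek.not_ram_L hw h
    · rintro rfl
      exact Lelek.ram_of_q (q := id) continuous_id (fun _ _ _ h => h)
  smooth := by
    intro x y S T hx hS hT
    have hne : ∀ n, Metric.hausdorffEDist (S n) T ≠ ⊤ := by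
      intro n
      rw [Lelek.arc_set (hS n), Lelek.arc_set hT]
      exact Metric.hausdorffEDist_ne_top_of_nonempty_of_bounded ⟨_, ⟨0, rfl⟩⟩ ⟨_, ⟨0, rfl⟩⟩
        (Bornology.IsBounded.all _) (Bornology.IsBounded.all _)
    rw [← ENNReal.tendsto_toReal_zero_iff hne]
    exact Lelek.smooth x y S T hx hS hT
  dense_ends := Lelek.A_dense.mono (by
    rintro _ ⟨s, rfl⟩
    exact top_isEnd (Lelek.A_top s))

namespace Pairing
variable {X : Type} [TopologicalSpace X] (P : Pairing X)

theorem rel_iff (x y : X) : (Setoid.mkClasses P.parts P.partition).r x y ↔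
    x = y ∨ ∃ i, (x = P.a i ∧ y = P.b i) ∨ (x = P.b i ∧ y = P.a i) := by
  have h0 : (Setoid.mkClasses P.parts P.partition).r x y ↔ ∀ s ∈ P.parts, x ∈ s → y ∈ s := Iff.rfl
  rw [h0]
  constructor
  · intro h
    obtain ⟨D, ⟨hD, hxD⟩, -⟩ := P.partition x
    have hy := h D hD hxD
    rcases hD with ⟨i, rfl⟩ | ⟨z, -, rfl⟩
    · rcases hxD with rfl | hx <;> rcases hy with rfl | hy
      · exact Or.inl rfl
      · exact Or.inr ⟨i, Or.inl ⟨rfl, hy⟩⟩
      · exact Or.inr ⟨i, Or.inr ⟨hx, rfl⟩⟩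
      · rw [mem_singleton_iff] at hx hy
        exact Or.inl (hx.trans hy.symm)
    · rw [mem_singleton_iff] at hxD hy
      exact Or.inl (hxD.trans hy.symm)
  · rintro (rfl | ⟨i, ⟨rfl, rfl⟩ | ⟨rfl, rfl⟩⟩) s hs hx
    · exact hx
    · obtain ⟨D, -, hu⟩ := P.partition (P.a i)
      rw [(hu s ⟨hs, hx⟩).trans (hu {P.a i, P.b i} ⟨Or.inl ⟨i, rfl⟩, by simp⟩).symm]
      simp
    · obtain ⟨D, -, hu⟩ := P.partition (P.b i)
      rw [(hu s ⟨hs, hx⟩).trans (hu {P.a i, P.b i} ⟨Or.inl ⟨i, rfl⟩, by simp⟩).symm]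
      simp

theorem usc_of_closed (h : IsClosedMap (Quotient.mk (Setoid.mkClasses P.parts P.partition))) :
    P.USC := by
  intro D hD U hU hDU
  have hmk : ∀ x y : X, Quotient.mk (Setoid.mkClasses P.parts P.partition) x =
      Quotient.mk (Setoid.mkClasses P.parts P.partition) y ↔ ∀ s ∈ P.parts, x ∈ s → y ∈ s :=
    fun x y => Quotient.eq
  have hcont : Continuous (Quotient.mk (Setoid.mkClasses P.parts P.partition)) :=
    continuous_quotient_mk'
  set q := Quotient.mk (Setoid.mkClasses P.parts P.partition) with hq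
  refine ⟨(q ⁻¹' (q '' Uᶜ))ᶜ, ((h _ hU.isClosed_compl).preimage hcont).isOpen_compl, ?_, ?_⟩
  · rintro x hx ⟨u, hu, hux⟩
    exact hu (hDU ((hmk x u).mp hux.symm D hD hx))
  · rintro D' hD' ⟨y, hy, hyV⟩ z hz
    by_contra hzU
    refine hyV ⟨z, hzU, ?_⟩
    rw [hmk]
    intro s hs hzs
    obtain ⟨E, -, hE⟩ := P.partition z
    rw [(hE s ⟨hs, hzs⟩).trans (hE D' ⟨hD', hz⟩).symm]
    exact hy

end Pairing

/-- There are a Lelek fan `L` and two pairings of endpoints of `L`, both null sequences of pairs,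
both with upper semicontinuous decomposition and Hausdorff quotient, such that the first quotient
has exactly one ramification point and the second has at least two; in particular the quotients
are not homeomorphic. -/
theorem result : ∃ (L : Type) (_ : MetricSpace L) (v : L), IsLelekFan L v ∧
    ∃ P Q : Pairing L, P.USC ∧ Q.USC ∧ T2Space P.Quot ∧ T2Space Q.Quot ∧
      Tendsto (fun i => dist (P.a i) (P.b i)) atTop (𝓝 0) ∧
      Tendsto (fun i => dist (Q.a i) (Q.b i)) atTop (𝓝 0) ∧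
      (∃! w : P.Quot, IsRam w) ∧ (∃ w w' : Q.Quot, w ≠ w' ∧ IsRam w ∧ IsRam w') ∧
      IsEmpty (P.Quot ≃ₜ Q.Quot) := by
  classical
  have : Infinite (Lelek.Wd (Fin 4)) :=
    Infinite.of_injective (fun n : ℕ => (⟨n, fun _ => 0⟩ : Lelek.Wd (Fin 4)))
      (fun a b h => congrArg Sigma.fst h)
  have : Infinite Lelek.Ix := Sum.infinite_of_left
  obtain ⟨d1⟩ := nonempty_denumerable (Lelek.Wd (Fin 4))
  obtain ⟨d2⟩ := nonempty_denumerable Lelek.Ix
  let e1 : ℕ ≃ Lelek.Wd (Fin 4) := (Denumerable.eqv _).symm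
  let e2 : ℕ ≃ Lelek.Ix := (Denumerable.eqv _).symm
  have hr1 : ∀ f : Lelek.Wd (Fin 4) → Lelek.L, Set.range (f ∘ e1) = Set.range f := fun f =>
    e1.surjective.range_comp f
  have hr2 : ∀ f : Lelek.Ix → Lelek.L, Set.range (f ∘ e2) = Set.range f := fun f =>
    e2.surjective.range_comp f
  let P : Pairing Lelek.L :=
    { a := Lelek.A ∘ e1
      b := Lelek.B ∘ e1
      a_end := fun i => top_isEnd (Lelek.A_top _)
      b_end := fun i => top_isEnd (Lelek.B_top _)
      a_inj := Lelek.A_inj.comp e1.injective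
      b_inj := Lelek.B_inj.comp e1.injective
      disj := fun i j h => Set.disjoint_left.mp Lelek.AB_disj ⟨_, rfl⟩ ⟨_, h.symm⟩
      a_dense := by rw [hr1]; exact Lelek.A_dense
      b_dense := by rw [hr1]; exact Lelek.B_dense }
  let Q : Pairing Lelek.L :=
    { a := Lelek.A' ∘ e2
      b := Lelek.B' ∘ e2
      a_end := fun i => top_isEnd (Lelek.A'_top _)
      b_end := fun i => top_isEnd (Lelek.B'_top _)
      a_inj := Lelek.A'_inj.comp e2.injective
      b_inj := Lelek.B'_inj.comp e2.injective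
      disj := fun i j h => Set.disjoint_left.mp Lelek.A'B'_disj ⟨_, rfl⟩ ⟨_, h.symm⟩
      a_dense := by rw [hr2]; exact Lelek.A'_dense
      b_dense := by rw [hr2]; exact Lelek.B'_dense }
  have hP : Setoid.mkClasses P.parts P.partition = Lelek.Dg := by
    apply Setoid.ext
    intro x y
    have h1 := P.rel_iff x y
    have h2 : Lelek.Dg.r x y ↔ Lelek.prel Lelek.A Lelek.B x y := Iff.rfl
    refine h1.trans (Iff.trans ?_ h2.symm)
    refine or_congr Iff.rfl ⟨fun ⟨i, hi⟩ => ⟨e1 i, hi⟩, fun ⟨i, hi⟩ => ⟨e1.symm i, ?_⟩⟩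
    show (x = Lelek.A (e1 (e1.symm i)) ∧ y = Lelek.B (e1 (e1.symm i))) ∨
      (x = Lelek.B (e1 (e1.symm i)) ∧ y = Lelek.A (e1 (e1.symm i)))
    rw [e1.apply_symm_apply]; exact hi
  have hQ : Setoid.mkClasses Q.parts Q.partition = Lelek.Dw := by
    apply Setoid.ext
    intro x y
    have h1 := Q.rel_iff x y
    have h2 : Lelek.Dw.r x y ↔ Lelek.prel Lelek.A' Lelek.B' x y := Iff.rfl
    refine h1.trans (Iff.trans ?_ h2.symm)
    refine or_congr Iff.rfl ⟨fun ⟨i, hi⟩ => ⟨e2 i, hi⟩, fun ⟨i, hi⟩ => ⟨e2.symm i, ?_⟩⟩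
    show (x = Lelek.A' (e2 (e2.symm i)) ∧ y = Lelek.B' (e2 (e2.symm i))) ∨
      (x = Lelek.B' (e2 (e2.symm i)) ∧ y = Lelek.A' (e2 (e2.symm i)))
    rw [e2.apply_symm_apply]; exact hi
  have cP : IsClosed {p : Lelek.L × Lelek.L |
      (Setoid.mkClasses P.parts P.partition).r p.1 p.2} := by
    rw [hP]; exact Lelek.Dg_closed
  have cQ : IsClosed {p : Lelek.L × Lelek.L |
      (Setoid.mkClasses Q.parts Q.partition).r p.1 p.2} := by
    rw [hQ]; exact Lelek.Dw_closed
  have uP : ∃! w : P.Quot, IsRam w := by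
    show ∃! w : Quotient (Setoid.mkClasses P.parts P.partition), IsRam w
    rw [hP]
    refine ⟨Lelek.qg Lelek.v, ?_, ?_⟩
    · refine (isRam_iff _).mpr (Lelek.ram_of_q Lelek.qg_cont ?_)
      intro p p' hp h
      rcases Lelek.qg_eq.mp h with h | ⟨s, ⟨h, _⟩ | ⟨h, _⟩⟩
      · exact h
      · exact absurd (by rw [h]; exact Lelek.A_top s) hp
      · exact absurd (by rw [h]; exact Lelek.B_top s) hp
    · intro w hw
      by_contra hne
      exact Lelek.good_not_ram hne ((isRam_iff _).mp hw)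
  have uQ : ∃ w w' : Q.Quot, w ≠ w' ∧ IsRam w ∧ IsRam w' := by
    show ∃ w w' : Quotient (Setoid.mkClasses Q.parts Q.partition), w ≠ w' ∧ IsRam w ∧ IsRam w'
    rw [hQ]
    exact ⟨Lelek.w0, Lelek.qw Lelek.v, Lelek.w0_ne_v, (isRam_iff _).mpr Lelek.ram_w0,
      (isRam_iff _).mpr Lelek.ram_v_w⟩
  refine ⟨Lelek.L, inferInstance, Lelek.v, isLelekFan_L, P, Q,
    P.usc_of_closed (Lelek.closedMap_of_closedRel cP),
    Q.usc_of_closed (Lelek.closedMap_of_closedRel cQ),
    Lelek.t2_of_closedRel cP, Lelek.t2_of_closedRel cQ, ?_, ?_, uP, uQ, ⟨fun f => ?_⟩⟩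
  · have h := Lelek.dist_AB_tendsto.comp e1.injective.tendsto_cofinite
    rw [Nat.cofinite_eq_atTop] at h
    exact h
  · have h := Lelek.dist_A'B'_tendsto.comp e2.injective.tendsto_cofinite
    rw [Nat.cofinite_eq_atTop] at h
    exact h
  · obtain ⟨w, w', hne, hw, hw'⟩ := uQ
    have h1 := uP.unique (hw.map f.symm) (hw'.map f.symm)
    exact hne (f.symm.injective h1)

end Pool.Agent.Results.MP_211c6f_gt.TwoQuotients
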